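import Pool.Agent.R571.PC.UC

/-!
MP_ef1120_an, Q1 (partial): a separable normed space in which sign sums of long sequences of
vectors of norm at least one cannot stay bounded has simultaneous packing and covering
constant `< 2`.
-/

namespace Pool.Agent.Results.MP_ef1120_an.NontrivialCotype

open Pool.Agent.R571.PC

theorem result (X : Type*) [NormedAddCommGroup X] [NormedSpace ℝ X]
    [TopologicalSpace.SeparableSpace X]
    (h : SignSumsUnbounded X) : gamma X < 2 :=
  gamma_lt_two h

end Pool.Agent.Results.MP_ef1120_an.NontrivialCotype
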